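import Pool.Agent.Y489.SP.Stm
import Pool.Agent.Y485.HS.Loc

/-!
Project SP (helper489), job SOB (helper662): Sobolev homeomorphisms belong to the class.
-/

set_option autoImplicit false

open MeasureTheory Set Metric Filter Topology
open scoped ENNReal NNReal Classical

namespace Pool.Agent.Y662.SP.SOB

open Pool.Agent.Y489.SP Pool.Agent.Y485.HS

/-- packing -/
lemma pack {n : ℕ} (z : E n) {R ρ : ℝ} (hρ : 0 < ρ) (hR : 0 ≤ R) (A : Finset (E n))
    (h1 : ∀ a ∈ A, dist a z ≤ R) (h2 : ∀ a ∈ A, ∀ b ∈ A, a ≠ b → ρ ≤ dist a b) :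
    (A.card : ℝ) ≤ (2 * R / ρ + 1) ^ n := by
  set v : ℝ≥0∞ := volume (ball (0 : E n) 1) with hv
  have hv0 : v ≠ 0 := (measure_ball_pos volume (0 : E n) one_pos).ne'
  have hvt : v ≠ ⊤ := measure_ball_lt_top.ne
  have hball : ∀ (x : E n) (s : ℝ), 0 < s → volume (ball x s) = ENNReal.ofReal (s ^ n) * v := by
    intro x s hs
    have := Measure.addHaar_ball_of_pos (volume : Measure (E n)) x hs
    rw [finrank_euclideanSpace_fin] at this
    exact this
  have hdis : (A : Set (E n)).PairwiseDisjoint (fun a => ball a (ρ / 2)) := by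
    intro a ha b hb hab
    apply ball_disjoint_ball
    have := h2 a ha b hb hab
    linarith
  have hsum : volume (⋃ a ∈ A, ball a (ρ / 2)) = ∑ a ∈ A, volume (ball a (ρ / 2)) :=
    measure_biUnion_finset hdis (fun a _ => measurableSet_ball)
  have hsub : (⋃ a ∈ A, ball a (ρ / 2)) ⊆ ball z (R + ρ / 2) := by
    intro x hx
    simp only [mem_iUnion] at hx
    obtain ⟨a, ha, hxa⟩ := hx
    rw [mem_ball] at hxa ⊢
    have := h1 a ha
    linarith [dist_triangle x a z]
  have hle := measure_mono (μ := volume) hsub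
  rw [hsum, hball z _ (by linarith)] at hle
  have e : ∑ a ∈ A, volume (ball a (ρ / 2)) = (A.card : ℝ≥0∞) * (ENNReal.ofReal ((ρ / 2) ^ n) * v) := by
    rw [Finset.sum_congr rfl (fun a _ => hball a (ρ / 2) (by linarith)), Finset.sum_const,
      nsmul_eq_mul]
  rw [e, ← mul_assoc] at hle
  have h3 : (A.card : ℝ≥0∞) * ENNReal.ofReal ((ρ / 2) ^ n) ≤ ENNReal.ofReal ((R + ρ / 2) ^ n) :=
    (ENNReal.mul_le_mul_iff_left hv0 hvt).1 hle
  rw [← ENNReal.ofReal_natCast, ← ENNReal.ofReal_mul (Nat.cast_nonneg _),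
    ENNReal.ofReal_le_ofReal_iff (by positivity)] at h3
  have h4 : (0 : ℝ) < (ρ / 2) ^ n := by positivity
  rw [← le_div_iff₀ h4, ← div_pow] at h3
  refine h3.trans (le_of_eq ?_)
  congr 1
  field_simp

/-- reduction to exponents `≤ n` -/
lemma reduce {n : ℕ} (hn : 2 ≤ n) {q : ℝ} (hq : (n : ℝ) - 1 < q) {g : E n → ℝ≥0∞}
    (hg : ∫⁻ x in BB n, g x ^ q < ∞) :
    ∃ q' : ℝ, (n : ℝ) - 1 < q' ∧ q' ≤ n ∧ ∫⁻ x in BB n, g x ^ q' < ∞ := by
  rcases le_or_gt q n with h | h
  · exact ⟨q, hq, h, hg⟩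
  · refine ⟨n, by linarith, le_rfl, ?_⟩
    have hle : ∫⁻ x in BB n, g x ^ (n : ℝ) ≤ ∫⁻ x in BB n, (1 + g x ^ q) := by
      apply lintegral_mono
      intro x
      rcases le_or_gt (g x) 1 with h1 | h1
      · calc g x ^ (n : ℝ) ≤ 1 ^ (n : ℝ) := ENNReal.rpow_le_rpow h1 (by positivity)
          _ = 1 := ENNReal.one_rpow _
          _ ≤ _ := le_self_add
      · exact (ENNReal.rpow_le_rpow_of_exponent_le h1.le h.le).trans le_add_self
    refine lt_of_le_of_lt hle ?_
    rw [lintegral_add_left measurable_const, lintegral_const, one_mul, Measure.restrict_apply_univ]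
    exact ENNReal.add_lt_top.2 ⟨by
      unfold BB
      exact measure_closedBall_lt_top, hg⟩

/-- bounded overlap -/
lemma overlap {n : ℕ} {F : E n → ℝ≥0∞} (hF : Measurable F) (A : Finset (E n)) {ρ : ℝ} {M : ℝ≥0∞}
    (hsub : ∀ a ∈ A, closedBall a ρ ⊆ BB n)
    (hM : ∀ z : E n, ((A.filter fun a => z ∈ closedBall a ρ).card : ℝ≥0∞) ≤ M) :
    ∑ a ∈ A, ∫⁻ z in closedBall a ρ, F z ≤ M * ∫⁻ z in BB n, F z := by
  have hB : MeasurableSet (BB n) := measurableSet_closedBall
  have e1 : ∀ a ∈ A, ∫⁻ z in closedBall a ρ, F z = ∫⁻ z, (closedBall a ρ).indicator F z :=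
    fun a _ => (lintegral_indicator measurableSet_closedBall F).symm
  rw [Finset.sum_congr rfl e1, ← lintegral_finset_sum _
    (fun a _ => hF.indicator measurableSet_closedBall), ← lintegral_indicator hB,
    ← lintegral_const_mul M (hF.indicator hB)]
  apply lintegral_mono
  intro z
  simp only
  have e2 : ∑ a ∈ A, (closedBall a ρ).indicator F z =
      ((A.filter fun a => z ∈ closedBall a ρ).card : ℝ≥0∞) * F z := by
    classical
    rw [Finset.card_filter, Nat.cast_sum, Finset.sum_mul]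
    refine Finset.sum_congr rfl (fun a _ => ?_)
    by_cases h : z ∈ closedBall a ρ
    · rw [indicator_of_mem h, if_pos h]; simp
    · rw [indicator_of_notMem h, if_neg h]; simp
  rw [e2]
  by_cases hz : z ∈ BB n
  · rw [indicator_of_mem hz]
    gcongr
    exact hM z
  · have : (A.filter fun a => z ∈ closedBall a ρ) = ∅ := by
      rw [Finset.filter_eq_empty_iff]
      intro a ha h
      exact hz (hsub a ha h)
    rw [this]
    simp

theorem t_SOB : S_FACE → S_SOB := by
  intro hFACE n hn H _ _ T hT h q0 hq0 hS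
  obtain ⟨g, hgm, hHaj, hgq0⟩ := hS
  obtain ⟨q, hq, hqn, hgq⟩ := reduce hn hq0 hgq0
  obtain ⟨C, hC⟩ := hFACE n hn q hq
  have hn1 : (2 : ℝ) ≤ n := by exact_mod_cast hn
  have hq0' : 0 < q := by linarith
  set G : ℝ := (∫⁻ x in BB n, g x ^ q).toReal with hG
  have hG0 : 0 ≤ G := ENNReal.toReal_nonneg
  have hGe : ∫⁻ x in BB n, g x ^ q = ENNReal.ofReal G := (ENNReal.ofReal_toReal hgq.ne).symm
  set M : ℝ := (4 * n + 1) ^ n with hM
  have hM0 : 0 ≤ M := by positivity
  set r0 : ℝ := 1 / (8 * n) with hr0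
  have hr0p : 0 < r0 := by positivity
  set C1 : ℝ := 9 ^ ((n : ℝ) - q) * (C * M * G) with hC1
  have hC10 : 0 ≤ C1 := by positivity
  set C2 : ℝ := (6 / r0 + 1) ^ n * 9 ^ n with hC2
  obtain ⟨N, hN1, hN2, hN3, hN4⟩ : ∃ N : ℕ, C1 ≤ N ∧ C2 ≤ N ∧ 1 / (N : ℝ) ≤ q - n + 1 ∧
      (1 : ℝ) ≤ N := by
    obtain ⟨N, hN⟩ := exists_nat_ge (max (max C1 C2) (max (1 / (q - n + 1)) 1))
    have a1 := (le_max_left _ _).trans hN
    have a2 := (le_max_right _ _).trans hN
    have b1 : (1 : ℝ) ≤ N := (le_max_right _ _).trans a2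
    refine ⟨N, (le_max_left _ _).trans a1, (le_max_right _ _).trans a1, ?_, b1⟩
    have b2 : 1 / (q - n + 1) ≤ N := (le_max_left _ _).trans a2
    have b3 : 0 < q - n + 1 := by linarith
    rw [div_le_iff₀ b3] at b2
    rw [div_le_iff₀ (by linarith)]
    linarith
  refine ⟨N, fun r hr hr1 A hA hsep => ?_⟩
  have hNn : 1 / (N : ℝ) ≤ 1 := by
    rw [div_le_one (by linarith)]; exact hN4
  -- images are bounded
  have himg : ∀ x : E n, ‖x‖ ≤ 4 → T h x ∈ closedBall (0 : E n) (17 / 4) := by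
    intro x hx
    rw [mem_closedBall, dist_zero_right]
    have := norm_T_le hT h (mem_BB.2 hx)
    linarith
  have hin : ∀ a ∈ A, ∀ x ∈ closedBall a r, ‖x‖ ≤ 4 := by
    intro a ha x hx
    have h1 := hA a ha
    rw [mem_closedBall, dist_zero_right] at h1
    rw [mem_closedBall, dist_eq_norm] at hx
    calc ‖x‖ = ‖(x - a) + a‖ := by rw [sub_add_cancel]
      _ ≤ ‖x - a‖ + ‖a‖ := norm_add_le _ _
      _ ≤ 4 := by linarith
  have hsubi : ∀ a ∈ A, T h '' closedBall a r ⊆ closedBall (0 : E n) (17 / 4) := by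
    rintro a ha _ ⟨x, hx, rfl⟩
    exact himg x (hin a ha x hx)
  have hmono : ∀ a ∈ A, diam (T h '' (closedBall a r ∩ closedBall 0 3)) ≤
      diam (T h '' closedBall a r) := fun a ha =>
    diam_mono (image_mono inter_subset_left) (isBounded_closedBall.subset (hsubi a ha))
  have hD9 : ∀ a ∈ A, diam (T h '' closedBall a r) ≤ 9 := by
    intro a ha
    have := diam_le_of_subset_closedBall (by norm_num) (hsubi a ha)
    linarith
  have hrpow : ∀ s : ℝ, s ≤ 0 → 1 ≤ r ^ s := fun s hs =>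
    Real.one_le_rpow_of_pos_of_le_one_of_nonpos hr hr1 hs
  rcases le_or_gt r r0 with hrr | hrr
  · -- small radii
    have hsubB : ∀ a ∈ A, closedBall a (2 * n * r) ⊆ BB n := by
      intro a ha x hx
      have h1 := hA a ha
      rw [mem_closedBall, dist_zero_right] at h1
      rw [mem_closedBall, dist_eq_norm] at hx
      have h2 : 2 * n * r ≤ 1 := by
        calc 2 * n * r ≤ 2 * n * r0 := by gcongr
          _ = 1 / 4 := by rw [hr0]; field_simp; norm_num
          _ ≤ 1 := by norm_num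
      rw [mem_BB]
      calc ‖x‖ = ‖(x - a) + a‖ := by rw [sub_add_cancel]
        _ ≤ ‖x - a‖ + ‖a‖ := norm_add_le _ _
        _ ≤ 4 := by linarith
    have hMz : ∀ z : E n, ((A.filter fun a => z ∈ closedBall a (2 * n * r)).card : ℝ≥0∞) ≤
        ENNReal.ofReal M := by
      intro z
      rw [← ENNReal.ofReal_natCast]
      apply ENNReal.ofReal_le_ofReal
      have := pack z hr (R := 2 * n * r) (by positivity)
        (A.filter fun a => z ∈ closedBall a (2 * n * r))
        (fun a ha => by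
          have := (Finset.mem_filter.1 ha).2
          rw [mem_closedBall] at this
          rw [dist_comm]; exact this)
        (fun a ha b hb hab => hsep a (Finset.mem_filter.1 ha).1 b (Finset.mem_filter.1 hb).1 hab)
      refine this.trans (le_of_eq ?_)
      rw [hM]
      congr 1
      field_simp
      ring
    have hov := overlap (F := fun z => g z ^ q) (hgm.pow_const q) A hsubB hMz
    have hsum : ∑ a ∈ A, ENNReal.ofReal (diam (T h '' closedBall a r)) ^ q ≤
        C * ENNReal.ofReal (r ^ (q - n)) * (ENNReal.ofReal M * ENNReal.ofReal G) := by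
      calc ∑ a ∈ A, ENNReal.ofReal (diam (T h '' closedBall a r)) ^ q
          ≤ ∑ a ∈ A, C * ENNReal.ofReal (r ^ (q - n)) *
            ∫⁻ z in closedBall a (2 * n * r), g z ^ q :=
            Finset.sum_le_sum (fun a ha => hC H T hT h g hgm hHaj a (hA a ha) r hr hrr)
        _ = C * ENNReal.ofReal (r ^ (q - n)) *
            ∑ a ∈ A, ∫⁻ z in closedBall a (2 * n * r), g z ^ q := by rw [Finset.mul_sum]
        _ ≤ C * ENNReal.ofReal (r ^ (q - n)) * (ENNReal.ofReal M * ENNReal.ofReal G) := by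
            rw [← hGe]
            gcongr
    have hrn : 0 ≤ r ^ (q - n) := Real.rpow_nonneg hr.le _
    have hsumR : ∑ a ∈ A, diam (T h '' closedBall a r) ^ q ≤ C * r ^ (q - n) * (M * G) := by
      have e1 : ∑ a ∈ A, ENNReal.ofReal (diam (T h '' closedBall a r)) ^ q =
          ENNReal.ofReal (∑ a ∈ A, diam (T h '' closedBall a r) ^ q) := by
        rw [ENNReal.ofReal_sum_of_nonneg (fun a _ => Real.rpow_nonneg diam_nonneg _)]
        exact Finset.sum_congr rfl
          (fun a _ => ENNReal.ofReal_rpow_of_nonneg diam_nonneg hq0'.le)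
      have e2 : (C : ℝ≥0∞) * ENNReal.ofReal (r ^ (q - n)) *
          (ENNReal.ofReal M * ENNReal.ofReal G) =
          ENNReal.ofReal (C * r ^ (q - n) * (M * G)) := by
        rw [ENNReal.ofReal_mul (by positivity), ENNReal.ofReal_mul (by positivity),
          ENNReal.ofReal_mul hM0, ENNReal.ofReal_coe_nnreal]
      rw [e1, e2] at hsum
      exact (ENNReal.ofReal_le_ofReal_iff (by positivity)).1 hsum
    have hterm : ∀ a ∈ A, diam (T h '' (closedBall a r ∩ closedBall 0 3)) ^ n ≤
        9 ^ ((n : ℝ) - q) * diam (T h '' closedBall a r) ^ q := by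
      intro a ha
      have h1 : diam (T h '' (closedBall a r ∩ closedBall 0 3)) ^ n ≤
          diam (T h '' closedBall a r) ^ n := pow_le_pow_left₀ diam_nonneg (hmono a ha) n
      refine h1.trans ?_
      rcases (diam_nonneg (s := T h '' closedBall a r)).eq_or_lt with h0 | h0
      · rw [← h0, Real.zero_rpow hq0'.ne', mul_zero, zero_pow (by omega)]
      · have e : diam (T h '' closedBall a r) ^ n =
            diam (T h '' closedBall a r) ^ ((n : ℝ) - q) * diam (T h '' closedBall a r) ^ q := by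
          rw [← Real.rpow_add h0, sub_add_cancel, Real.rpow_natCast]
        have h3 : diam (T h '' closedBall a r) ^ ((n : ℝ) - q) ≤ 9 ^ ((n : ℝ) - q) :=
          Real.rpow_le_rpow h0.le (hD9 a ha) (by linarith)
        rw [e]
        exact mul_le_mul_of_nonneg_right h3 (Real.rpow_nonneg h0.le _)
    calc ∑ a ∈ A, diam (T h '' (closedBall a r ∩ closedBall 0 3)) ^ n
        ≤ ∑ a ∈ A, 9 ^ ((n : ℝ) - q) * diam (T h '' closedBall a r) ^ q :=
          Finset.sum_le_sum hterm
      _ = 9 ^ ((n : ℝ) - q) * ∑ a ∈ A, diam (T h '' closedBall a r) ^ q := by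
          rw [Finset.mul_sum]
      _ ≤ 9 ^ ((n : ℝ) - q) * (C * r ^ (q - n) * (M * G)) := by gcongr
      _ = C1 * r ^ (q - n) := by rw [hC1]; ring
      _ ≤ N * r ^ (1 / (N : ℝ) - 1) := by
          have h5 : r ^ (q - n) ≤ r ^ (1 / (N : ℝ) - 1) :=
            Real.rpow_le_rpow_of_exponent_ge hr hr1 (by linarith)
          exact mul_le_mul hN1 h5 hrn (by linarith)
  · -- large radii
    have hcard : (A.card : ℝ) ≤ (6 / r0 + 1) ^ n := by
      have := pack (0 : E n) hr0p (R := 3) (by norm_num) A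
        (fun a ha => by
          have := hA a ha
          rwa [mem_closedBall] at this)
        (fun a ha b hb hab => hrr.le.trans (hsep a ha b hb hab))
      refine this.trans (le_of_eq ?_)
      congr 2
      ring
    calc ∑ a ∈ A, diam (T h '' (closedBall a r ∩ closedBall 0 3)) ^ n
        ≤ ∑ _a ∈ A, (9 : ℝ) ^ n := Finset.sum_le_sum (fun a ha =>
          pow_le_pow_left₀ diam_nonneg ((hmono a ha).trans (hD9 a ha)) n)
      _ = A.card * 9 ^ n := by rw [Finset.sum_const, nsmul_eq_mul]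
      _ ≤ (6 / r0 + 1) ^ n * 9 ^ n := by gcongr
      _ ≤ N := hN2
      _ = N * 1 := (mul_one _).symm
      _ ≤ N * r ^ (1 / (N : ℝ) - 1) := by
          have := hrpow (1 / (N : ℝ) - 1) (by linarith)
          gcongr

end Pool.Agent.Y662.SP.SOB
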